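import Mathlib
import Pool.Agent.Helper18.UW.GoalsG

/-!
Packet UW-G7u (MP_d3128a_ag): few skips of the special points near the end.
Adapted from `Pool/Agent/Helper11/EW/G7.lean`.
-/

set_option autoImplicit false

namespace Pool.Agent.Helper20.UW

open Finset
open Pool.Agent.Helper18.EW
open Pool.Agent.Helper18.UW
open Pool.Agent.Helper43.Hw (U)

/-- one step of the special points -/
theorem stepP (μ δ R K τ s E l : ℕ) (ms e P : ℕ → ℕ) (hG : UGrp μ δ R K τ s E ms e P)
    (hK : 128 * l * K ≤ μ) (t : ℕ) (h1 : τ ≤ t) (h2 : t + 1 < s)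
    (hs : μ + 16 * l * ∑ i ∈ range K, (ms i - P t / e i) ≤
      16 * l * ∑ i ∈ range K, (ms i - P (t + 1) / e i)) :
    μ * E + 64 * l * K * P (t + 1) ≤ 64 * l * K * P t := by
  have hdr := hG.dr t h1 h2
  obtain ⟨D, hD⟩ : ∃ D, P t = P (t + 1) + D := ⟨P t - P (t + 1), by omega⟩
  have hone : ∀ i ∈ range K, E * (ms i - P (t + 1) / e i) ≤
      E * (ms i - P t / e i) + (2 * D + E) := by
    intro i hi
    obtain ⟨he0, he1, he2⟩ := hG.e1 i (mem_range.1 hi)
    have ha : P t / e i ≤ P (t + 1) / e i + D / e i + 1 := by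
      rw [hD]
      have h3 : P (t + 1) + D < (P (t + 1) / e i + D / e i + 1 + 1) * e i := by
        have h4 := Nat.lt_div_mul_add (a := P (t + 1)) he0
        have h5 := Nat.lt_div_mul_add (a := D) he0
        nlinarith
      have := (Nat.div_lt_iff_lt_mul he0).2 h3
      omega
    have hb : E * (D / e i) ≤ 2 * D := by
      calc E * (D / e i) ≤ (2 * e i) * (D / e i) := Nat.mul_le_mul_right _ he2
        _ = 2 * (e i * (D / e i)) := by ring
        _ ≤ 2 * D := Nat.mul_le_mul_left _ (Nat.mul_div_le D (e i))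
    have hc : ms i - P (t + 1) / e i ≤ (ms i - P t / e i) + (D / e i + 1) := by
      generalize P (t + 1) / e i = A at ha ⊢
      generalize P t / e i = B at ha ⊢
      generalize D / e i = C at ha ⊢
      omega
    calc E * (ms i - P (t + 1) / e i) ≤ E * ((ms i - P t / e i) + (D / e i + 1)) :=
          Nat.mul_le_mul_left _ hc
      _ = E * (ms i - P t / e i) + (E * (D / e i) + E) := by ring
      _ ≤ _ := by omega
  have hsum := sum_le_sum hone
  rw [sum_add_distrib, ← mul_sum, ← mul_sum, sum_const, card_range, smul_eq_mul] at hsum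
  have h3 : E * (μ + 16 * l * ∑ i ∈ range K, (ms i - P t / e i)) ≤
      E * (16 * l * ∑ i ∈ range K, (ms i - P (t + 1) / e i)) := Nat.mul_le_mul_left _ hs
  have h4 : 16 * l * (E * ∑ i ∈ range K, (ms i - P (t + 1) / e i)) ≤
      16 * l * (E * ∑ i ∈ range K, (ms i - P t / e i) + K * (2 * D + E)) :=
    Nat.mul_le_mul_left _ hsum
  have h5 : E * (128 * l * K) ≤ E * μ := Nat.mul_le_mul_left _ hK
  rw [hD]
  nlinarith

/-- the bound for one special point -/
theorem onePoint (μ m R K τ s E l w : ℕ) (e P : ℕ → ℕ) (hl : 1 ≤ l) (hKp : 0 < K)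
    (hG : Grp m R 1 τ s E e P) (hK : 128 * l * K ≤ μ)
    (hchain : ∀ n t, τ ≤ t → t + n < s →
      n * (μ * E) + 64 * l * K * P (t + n) ≤ 64 * l * K * P t) :
    μ * ((range s).filter (fun t => 0 < gx m τ s e P 0 t ∧
      U m R (gx m τ s e P 0) t ≤ w)).card ≤ μ + 128 * l * K * (w + 1) := by
  obtain ⟨he0, he1, he2⟩ := hG.e1 0 (by omega)
  set B := (range s).filter (fun t => 0 < gx m τ s e P 0 t ∧
    U m R (gx m τ s e P 0) t ≤ w) with hB
  rcases B.eq_empty_or_nonempty with hempty | hne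
  · rw [hempty]; simp
  -- facts on the counted rows
  have hgs : gs s e P 0 ≤ s := by
    unfold gs; split_ifs <;> omega
  have hmem : ∀ t ∈ B, τ ≤ t ∧ t < s ∧ P t / e 0 < m ∧ R ≤ w + t + 1 + P t / e 0 := by
    intro t ht
    rw [hB, mem_filter, mem_range] at ht
    obtain ⟨h1, h2, h3⟩ := ht
    unfold gx at h2
    by_cases hc : τ ≤ t ∧ t < gs s e P 0
    · rw [if_pos hc] at h2
      unfold U gx at h3
      rw [if_pos hc] at h3
      refine ⟨hc.1, h1, by omega, by omega⟩
    · rw [if_neg hc] at h2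
      omega
  have hJs := hG.Js
  have htJ := hG.tJ
  have hsR := hG.sR
  -- after the row J
  have hdec : ∀ n, R - 1 - m + n < s → P (R - 1 - m + n) / e 0 + n < m := by
    intro n
    induction n with
    | zero => intro _; simpa using hG.ma 0 (by omega)
    | succ n ih =>
      intro h1
      have h2 := ih (by omega)
      have h3 := hG.dr (R - 1 - m + n) (by omega) (by omega)
      have h4 : P (R - 1 - m + n + 1) / e 0 + 1 ≤ P (R - 1 - m + n) / e 0 := by
        rw [Nat.le_div_iff_mul_le he0]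
        have h5 := Nat.div_mul_le_self (P (R - 1 - m + n + 1)) (e 0)
        nlinarith
      have h6 : R - 1 - m + (n + 1) = R - 1 - m + n + 1 := by ring
      rw [h6]
      omega
  have hup : ∀ t ∈ B, P t / e 0 + t + 1 ≤ R := by
    intro t ht
    obtain ⟨h1, h2, h3, h4⟩ := hmem t ht
    by_cases hc : t ≤ R - 1 - m
    · omega
    · obtain ⟨n, hn⟩ : ∃ n, t = R - 1 - m + n := ⟨t - (R - 1 - m), by omega⟩
      have h5 := hdec n (by omega)
      rw [← hn] at h5
      omega
  obtain ⟨t1, ht1, hmin⟩ := B.exists_min_image id hne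
  obtain ⟨t2, ht2, hmax⟩ := B.exists_max_image id hne
  simp only [id] at hmin hmax
  have h12 : t1 ≤ t2 := hmin t2 ht2
  obtain ⟨n, hn⟩ : ∃ n, t2 = t1 + n := ⟨t2 - t1, by omega⟩
  have hcard : B.card ≤ n + 1 := by
    have hsub : B ⊆ Icc t1 t2 := fun t ht => mem_Icc.2 ⟨hmin t ht, hmax t ht⟩
    have := card_le_card hsub
    rw [Nat.card_Icc] at this
    omega
  obtain ⟨a1, a2, a3, a4⟩ := hmem t1 ht1
  obtain ⟨b1, b2, b3, b4⟩ := hmem t2 ht2
  have hu1 := hup t1 ht1
  have hq : P t1 / e 0 ≤ w + n + P t2 / e 0 := by omega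
  have hch := hchain n t1 a1 (by omega)
  rw [← hn] at hch
  -- P t1 < e (P t1 / e + 1)
  have hd1 : P t1 < P t1 / e 0 * e 0 + e 0 := Nat.lt_div_mul_add he0
  have hd2 : P t2 / e 0 * e 0 ≤ P t2 := Nat.div_mul_le_self _ _
  have hq2 : P t1 < P t2 + e 0 * (w + n + 1) := by nlinarith
  have hlK : 0 < 64 * l * K := by positivity
  have hq3 : 64 * l * K * P t1 < 64 * l * K * (P t2 + e 0 * (w + n + 1)) :=
    Nat.mul_lt_mul_of_pos_left hq2 hlK
  have hq4 : n * (μ * E) < 64 * l * K * (e 0 * (w + n + 1)) := by nlinarith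
  have hq5 : n * μ * e 0 < 64 * l * K * (w + n + 1) * e 0 := by
    calc n * μ * e 0 ≤ n * μ * E := Nat.mul_le_mul_left _ he1
      _ = n * (μ * E) := by ring
      _ < 64 * l * K * (e 0 * (w + n + 1)) := hq4
      _ = _ := by ring
  have hq6 : n * μ < 64 * l * K * (w + n + 1) := Nat.lt_of_mul_lt_mul_right hq5
  have hq7 : n * (128 * l * K) ≤ n * μ := Nat.mul_le_mul_left _ hK
  have hq8 : μ * n ≤ 128 * l * K * (w + 1) := by nlinarith
  calc μ * B.card ≤ μ * (n + 1) := Nat.mul_le_mul_left _ hcard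
    _ = μ * n + μ := by ring
    _ ≤ _ := by omega

/-- UW-G7u -/
theorem goalG7u : GoalG7u := by
  intro μ δ R K τ s E l w ms e P hμ hl hG hK hs
  have hstep : ∀ t, τ ≤ t → t + 1 < s → μ * E + 64 * l * K * P (t + 1) ≤ 64 * l * K * P t :=
    fun t h1 h2 => stepP μ δ R K τ s E l ms e P hG hK t h1 h2 (hs t h1 h2)
  have hchain : ∀ n t, τ ≤ t → t + n < s →
      n * (μ * E) + 64 * l * K * P (t + n) ≤ 64 * l * K * P t := by
    intro n
    induction n with
    | zero => intro t _ _; simp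
    | succ n ih =>
      intro t h1 h2
      have h3 := ih t h1 (by omega)
      have h4 := hstep (t + n) (by omega) (by omega)
      have h5 : t + (n + 1) = t + n + 1 := by ring
      rw [h5]
      nlinarith
  have hpt : ∀ i ∈ range K, μ * gQ (ms i) R 1 τ s (fun _ => e i) P w ≤
      μ + 128 * l * K * (w + 1) := by
    intro i hi
    have hiK := mem_range.1 hi
    unfold gQ
    rw [sum_range_one]
    exact onePoint μ (ms i) R K τ s E l w (fun _ => e i) P hl (by omega) (hG.one hiK) hK hchain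
  unfold uQ
  rw [mul_sum]
  refine (sum_le_sum hpt).trans ?_
  rw [sum_const, card_range, smul_eq_mul]
  apply le_of_eq
  ring

end Pool.Agent.Helper20.UW
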